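import Mathlib
import Pool.Agent.H692.FL.Equation

/-!
# 3SUM is not solved by linear decision trees with five terms in `n polylog n` queries

The model is the linear decision tree: the input is a sequence of `n` real numbers (here:
integers), a query computes an affine form `∑ i, a i * x i + b` and the tree branches according to
its sign (negative, zero, positive).  The tree depends on `n` (it is non-uniform), everything but
the queries is free.  The known algorithms that are faster than the schoolbook method are of this
kind: Grønlund and Pettie solve 3SUM with trees of depth `n^(3/2)` times a logarithmic factor whose
queries have four terms (they compare `a + b` with `c + d`), and Kane, Lovett and Moran with trees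
of depth `O(n log² n)` whose queries have six terms with the coefficients `1` and `-1` (they compare
`a + b - c` with `a' + b' - c'`).

We show that six terms are necessary for a bound like the last one: every randomised family of trees
whose queries have at most four terms with arbitrary real coefficients or at most five terms with
integer coefficients of absolute value at most `exp (c * √(log n))`, and which decides 3SUM on
sorted inputs with error at most `1/3`, needs `n * exp (c * √(log n))` queries in expectation on
some input without solution, for a constant `c > 0`.

Definitions (file `Pool.Agent.H692.FL.Model`):

* `Tree ι`, `Tree.run`, `Tree.cost`: linear decision trees, the answer and the number of queries on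
  an input;
* `Adm H a`: at most four of the coefficients `a i` are not zero, or at most five, and then all
  coefficients are integers of absolute value at most `H`; `Tree.FiveTerm H`: the coefficients of
  all queries of the tree are admissible in this sense;
* `Sol x`: the set of the values of `x` contains three pairwise distinct elements `a`, `b`, `c` with
  `a + b = c`.

## Proof idea

The numbers are the edges of a two-dimensional complex, and an input without solution gives every
triangle of the complex a small non-zero weight `x a + x b - x c`.  A form which does not vanish on
all the inputs with weights zero is dominated by a generic such input (a potential).  The complex is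
built from the cosets of small subgroups of a finite group of unipotent matrices over a field with
`Q` elements in such a way that its closed walks of length at most five come from triangles; so the
forms with at most five terms that vanish on all the potentials are the multiples of the weight of
one triangle, the combinations of the weights of two triangles with a common edge, and the
multiples of `V t - V t' + V t''` for three triangles such that `t`, `t'` and `t'`, `t''` have
different common edges.  Every edge has many triangles (`2 ^ s` on the average, after passing to a
random subset of the points, chosen to destroy nearly all short closed galleries).  For a triangle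
`m` without short closed galleries there is an input `y m` with solution `m` that arises from the
input `x` by spreading the correction of the weight of `m` over the galleries that start at `m`,
with one half of the weight at each step, so that at most the part `2 ^ (-k)` arrives at the
triangles at distance `k + 1` and nothing at the others.  The weights of the triangles at `x` are
integers of size `2 ^ O(s)`, chosen so that the forms above with coefficients up to `2 ^ s` do not
vanish; so all these forms have the same sign at `x` and at `y m`, except if `m` is one of the at
most three triangles of the form.  So a query separates `x` from at most three of the inputs `y m`,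
while there are `n * 2 ^ s / O(1)` triangles `m`.
-/

namespace Pool.Agent.Results.MP_13bec0_lc.FiveTermTrees

open Pool.Agent.H692.FL

open Classical in
/-- There are a constant `c > 0` and an `n₀` such that for all `n ≥ n₀`: every randomised linear
decision tree (a finite probability space of trees) on `n` numbers whose queries have at most four
non-zero coefficients, or at most five and then integers of absolute value at most
`exp (c * √(log n))`, and which decides with probability at least `2 / 3` on every strictly
increasing sequence of `n` integers whether the set of its elements contains pairwise distinct
`a`, `b`, `c` with `a + b = c`, makes at least `n * exp (c * √(log n))` queries in expectation on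
some strictly increasing sequence without such elements. -/
theorem result : ∃ c : ℝ, 0 < c ∧ ∃ n₀ : ℕ, ∀ n ≥ n₀, ∀ (Ω : Type) [Fintype Ω] (p : Ω → ℝ)
    (t : Ω → Pool.Agent.H692.FL.Tree (Fin n)), (∀ ω, 0 ≤ p ω) → ∑ ω, p ω = 1 →
    (∀ ω, (t ω).FiveTerm (Real.exp (c * √(Real.log n)))) →
    (∀ x : Fin n → ℤ, StrictMono x →
      2 / 3 ≤ ∑ ω, p ω * (if ((t ω).run (fun i => (x i : ℝ)) = true ↔ Sol x) then 1 else 0)) →
    ∃ x : Fin n → ℤ, StrictMono x ∧ ¬ Sol x ∧
      n * Real.exp (c * √(Real.log n)) ≤
        ∑ ω, p ω * ((t ω).cost (fun i => (x i : ℝ)) : ℝ) := by
  obtain ⟨n₀, h₀⟩ := equation
  refine ⟨1 / 400, by norm_num, n₀, fun n hn Ω _ p t hp hp1 hs hcor => ?_⟩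
  have hc : 1 / 400 * √(Real.log n) = √(Real.log n) / 400 := by ring
  rw [hc] at hs ⊢
  obtain ⟨α, h0, h1, h2⟩ : ∃ α : ZMod 3 → ℤ, α 0 = 1 ∧ α 1 = 1 ∧ α 2 = -1 := by
    have z20 : (2 : ZMod 3) ≠ 0 := by decide
    have z21 : (2 : ZMod 3) ≠ 1 := by decide
    exact ⟨fun c => if c = 0 then 1 else if c = 1 then 1 else -1, by simp, by simp,
      by simp [z20, z21]⟩
  have all : ∀ c : ZMod 3, c = 0 ∨ c = 1 ∨ c = 2 := by decide
  have hS : ∀ x : Fin n → ℤ, StrictMono x → (SolD α x ↔ Sol x) := by
    intro x hx
    rw [SolD, Sol, h0, h1, h2]
    refine exists_congr fun i => exists_congr fun j => exists_congr fun k => ?_
    rw [hx.injective.ne_iff, hx.injective.ne_iff, hx.injective.ne_iff]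
    constructor
    · rintro ⟨k1, k2, k3, k4⟩
      exact ⟨k1, k2, k3, by linarith⟩
    · rintro ⟨k1, k2, k3, k4⟩
      exact ⟨k1, k2, k3, by linarith⟩
  obtain ⟨x, hx1, hx2, hx3⟩ := h₀ n hn α (by
    intro c
    rcases all c with rfl | rfl | rfl
    · rw [h0]; norm_num
    · rw [h1]; norm_num
    · rw [h2]; norm_num) 1 (Real.exp (√(Real.log n) / 400)) (by
    intro c
    rcases all c with rfl | rfl | rfl
    · rw [h0]; norm_num
    · rw [h1]; norm_num
    · rw [h2]; norm_num) (by
    have := Real.exp_pos (√(Real.log n) / 400)
    linarith) Ω p t hp hp1 hs (fun x hx _ => by
    refine (hcor x hx).trans (le_of_eq (Finset.sum_congr rfl fun ω _ => ?_))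
    congr 1
    refine if_congr ?_ rfl rfl
    rw [hS x hx])
  refine ⟨x, hx1, fun h => hx2 ?_, hx3⟩
  obtain ⟨i, j, k, k1, -, -, k4⟩ := (hS x hx1).2 h
  exact ⟨i, j, k, fun h' => k1 h'.1, k4⟩

end Pool.Agent.Results.MP_13bec0_lc.FiveTermTrees
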