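import Pool.Agent.H660.US.Up
import Pool.Agent.H660.UR.Sum

/-!
# 3SUM by programs that compute with unknown inputs

The input is a set `S` of at most `n` integers from a domain `U` (for instance `{-n³, ..., n³}`):
each integer is known to belong to `S`, known not to belong to `S`, or unknown (`Know ℤ`). The gates
of a circuit have values in an ordered set `D` of states of knowledge and apply arbitrary functions
`D → D → D` that respect the order: more knowledge about the arguments gives more knowledge about
the value. `D` is any partially ordered set in which the elements below a given one form a chain of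
real numbers (`TreeLike D`).

* `D` may be the flat order over any set `A`, for instance the set of the machine words of any
  length, of polynomials or of complex numbers. The gates apply ARBITRARY operations `A → A → A`
  (all the instructions of the word RAM: arithmetic, Boolean, comparisons, selections, ...) as soon
  as the arguments are known; with their most precise extensions (`Flat.ext`) they may also give a
  value when an argument is unknown and irrelevant. For `A = Bool` these are the hazard-free
  (three-valued) circuits with arbitrary binary gates, negations included.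
* If `D = ℝ` then these are the monotone real circuits.

The circuits solve 3SUM with advantage `δ` (`SolvesS n U δ p l`): for every set `S ⊆ U` of at most
`n` integers, the answer is yes with probability at least `1 / 2 + δ` if there are three different
elements of `S` with `a + b = c` and the elements of `S` are known (for all other integers it may be
unknown whether they belong to `S`), and the answer is not yes with probability at least `1 / 2 + δ`
if there are no such elements and everything is known.

(1) For every exponent `t < 2`, every `b > 0` and all large `n`, if the domain contains the integers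
between `0` and `n ^ (1 + b)`, then every such randomised circuit has an expected number of gates of
at least `(2 δ - n ^ (-α)) n ^ t`. So `n ^ (2 - o(1))` gates are needed, even for an advantage of
`n ^ (-o(1))`. With complete knowledge `n ^ (1 + b + o(1))` operations are enough for the set of
all integers between `0` and `n ^ (1 + b)` (fast Fourier transform).

The same holds for random access machines (`Machine`) whose operations wait for their arguments. The
words, the addresses and the states are arbitrary (also infinite) sets. In each step the machine
needs the word in one cell, and stops for ever if it is unknown. It changes one cell, whose new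
contents is an order-preserving function of the contents of two cells, which may be unknown, or the
translation of one bit of the input, and it goes to the next state. The cells, the function, the bit
and the next state depend on the word in an arbitrary way (indirect addressing, jumps). If such
machines, stopped after `T ω` steps, solve 3SUM with advantage `δ` (`SumM n U δ p R T`: the answer is
yes if the machine comes to a state in `yes`), then `2 E[T] + 1 ≥ (2 δ - n ^ (-α)) n ^ t` for the
expectation of `T`.

(2) For every finite domain `U` some three-valued circuit with at most `4 |U| ^ 2` gates solves the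
problem without errors, and it finds out, for every partial knowledge about `S`, whether `S` is known
to have a solution and whether `S` is known to have none. (If `|U| = n ^ (1 + o(1))` this is
`n ^ (2 + o(1))`, so that (1) is sharp.)

Proof of (1). Declare the integers outside `S` unknown. The value of each gate is then below its
value for the set of all integers, known completely, so that it lies in a chain, in which each gate
is simulated by one monotone real gate. The average-case bound for monotone real circuits which is
proved for the library result `MonotoneCircuits` applies. A machine makes, if the integers outside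
`S` are unknown, the same steps as for the set of all integers, until it stops. So two gates for each
step give the contents of the memory, and tell whether it has not yet stopped.
-/

set_option autoImplicit false

namespace Pool.Agent.Results.MP_13bec0_lc.UnknownInputCircuits

open Filter Pool.Agent.H698.HF Pool.Agent.H660.US Pool.Agent.H660.UR
open Flat (unknown known)

theorem result :
    -- (1) the lower bound
    (∀ t b : ℝ, 0 < t → t < 2 → 0 < b → ∃ α : ℝ, 0 < α ∧ ∀ᶠ n : ℕ in atTop, ∀ U : Finset ℤ,
      (∀ z : ℤ, 0 ≤ z → (z : ℝ) ≤ (n : ℝ) ^ (1 + b) → z ∈ U) →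
      -- for circuits
      (∀ (D : Type) [PartialOrder D], TreeLike D →
        ∀ (δ : ℝ) (Ω : Type) [Fintype Ω] (p : Ω → ℝ) (l : Ω → List (Know ℤ → D)),
          (∀ ω, Circ (l ω)) → SolvesS n U δ p l →
          (2 * δ - (n : ℝ) ^ (-α)) * (n : ℝ) ^ t ≤ ∑ ω, p ω * ((l ω).length : ℝ)) ∧
      -- for random access machines
      (∀ (δ : ℝ) (A W Q Ω : Type) [Fintype Ω] (p : Ω → ℝ) (R : Ω → Machine ℤ A W Q)
        (T : Ω → ℕ), SumM n U δ p R T →
        (2 * δ - (n : ℝ) ^ (-α)) * (n : ℝ) ^ t ≤ 2 * ∑ ω, p ω * (T ω : ℝ) + 1)) ∧
    -- (2) the upper bound
    (∀ U : Finset ℤ, 2 ≤ U.card → ∃ l : List (Know ℤ → Flat Bool), Circ l ∧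
      l.length ≤ 4 * U.card ^ 2 ∧
      (∀ n : ℕ, SolvesS n U (1 / 2) (fun _ : Unit => 1) (fun _ => l)) ∧
      ∃ out ∈ l, ∀ P : Know ℤ, (∃ S ⊆ U, Le P (full (· ∈ S))) →
        (out P = known true ↔ ∀ S ⊆ U, Le P (full (· ∈ S)) → HasSum S) ∧
        (out P = known false ↔ ∀ S ⊆ U, Le P (full (· ∈ S)) → ¬ HasSum S)) ∧
    -- (3) the orders
    TreeLike ℝ ∧ ∀ A : Type, TreeLike (Flat A) ∧ (Nonempty A → ∀ (f : A → A → A)
      (x x' y y' : Flat A), x ≤ x' → y ≤ y' → Flat.ext f x y ≤ Flat.ext f x' y') := by
  refine ⟨?_, upperS, treeLike_real,
    fun A => ⟨Flat.treeLike, fun hA f x x' y y' hx hy => Flat.ext_mono' f x x' y y' hx hy⟩⟩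
  intro t b ht ht2 hb
  obtain ⟨α, hα, h⟩ := lowerS ht.le ht2 hb
  obtain ⟨β, hβ1, hβ2, hβ3⟩ : ∃ β : ℝ, 0 < β ∧ β < α ∧ β < t :=
    ⟨min α t / 2, by positivity, by
      have := min_le_left α t
      have := lt_min hα ht
      linarith, by
      have := min_le_right α t
      have := lt_min hα ht
      linarith⟩
  refine ⟨β, hβ1, ?_⟩
  have hlim : Tendsto (fun n : ℕ => (n : ℝ) ^ (-(α - β)) + (n : ℝ) ^ (-(t - β))) atTop
      (nhds (0 + 0)) := by
    refine Tendsto.add ?_ ?_
    · exact (tendsto_rpow_neg_atTop (by linarith)).comp tendsto_natCast_atTop_atTop
    · exact (tendsto_rpow_neg_atTop (by linarith)).comp tendsto_natCast_atTop_atTop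
  rw [add_zero] at hlim
  filter_upwards [h, eventually_ge_atTop 1, hlim.eventually (gt_mem_nhds zero_lt_one)] with
    n hn hn1 hn2
  intro U hU
  have hn0 : (0 : ℝ) < n := by exact_mod_cast hn1
  have e1 : (n : ℝ) ^ (-α) = (n : ℝ) ^ (-(α - β)) * (n : ℝ) ^ (-β) := by
    rw [← Real.rpow_add hn0]; congr 1; ring
  have e2 : (1 : ℝ) = (n : ℝ) ^ (-(t - β)) * (n : ℝ) ^ (-β) * (n : ℝ) ^ t := by
    rw [← Real.rpow_add hn0, ← Real.rpow_add hn0]
    have : -(t - β) + -β + t = 0 := by ring
    rw [this, Real.rpow_zero]
  have hβ0 : 0 < (n : ℝ) ^ (-β) := Real.rpow_pos_of_pos hn0 _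
  have ht0 : 0 < (n : ℝ) ^ t := Real.rpow_pos_of_pos hn0 _
  have h2 : (n : ℝ) ^ (-α) * (n : ℝ) ^ t + 1 ≤ (n : ℝ) ^ (-β) * (n : ℝ) ^ t := by
    have h3 : ((n : ℝ) ^ (-(α - β)) + (n : ℝ) ^ (-(t - β))) * ((n : ℝ) ^ (-β) * (n : ℝ) ^ t) ≤
        1 * ((n : ℝ) ^ (-β) * (n : ℝ) ^ t) :=
      mul_le_mul_of_nonneg_right hn2.le (mul_pos hβ0 ht0).le
    rw [e1]
    nlinarith
  have key : ∀ (D : Type) [PartialOrder D], TreeLike D →
      ∀ (δ : ℝ) (Ω : Type) [Fintype Ω] (p : Ω → ℝ) (l : Ω → List (Know ℤ → D)),
        (∀ ω, Circ (l ω)) → SolvesS n U δ p l →
        (2 * δ - (n : ℝ) ^ (-β)) * (n : ℝ) ^ t ≤ ∑ ω, p ω * ((l ω).length : ℝ) := by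
    intro D _ hD δ Ω _ p l hl hs
    have h1 := hn U hU D hD δ Ω p l hl hs
    nlinarith
  exact ⟨key, fun δ A W Q Ω _ p R T hR => lowerR key δ p R T hR⟩

end Pool.Agent.Results.MP_13bec0_lc.UnknownInputCircuits
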